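import Pool.Agent.H89.CC.Fin

set_option autoImplicit false

/-!
# Circuit-cocircuit intersections: `k` does not imply `k - 2` for all `k ≥ 20`

The circuits and cocircuits of the binary matroid of a doubly even self-dual code of length `8 s` without words
of weight 4 are the same: the supports of the words of minimal support. They have at most `4 s` elements
(rank plus one, and the weights are divisible by 4), and two different ones meet in at most `4 s - 4` elements. If
there is one with `4 s` elements, the largest intersection has the size `t = 4 s`, and no
intersection has the size `t - 1`, `t - 2` or `t - 3`. Such codes are given for `s = 3, 4, 5, 6, 7`. This property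
is inherited by 2-sums, with `t + u - 2` for `t`, `u`, so it holds for all even `t ≥ 20`. The 2-sum with
`U_{2,4}` gives the odd numbers.
-/

namespace Pool.Agent.Results.MP_1fc8d1_co.EverySizeFromTwenty

/-- For `k = 12, 13, 16, 17` and for every `k ≥ 20` there is a finite matroid in which some circuit and some
cocircuit meet in exactly `k` elements, but no circuit and cocircuit meet in exactly `k - 2` elements. -/
theorem result (k : ℕ) (hk : k = 12 ∨ k = 13 ∨ k = 16 ∨ k = 17 ∨ 20 ≤ k) :
    ∃ (α : Type) (M : Matroid α), M.Finite ∧
      (∃ C K : Set α, M.IsCircuit C ∧ M.IsCocircuit K ∧ (C ∩ K).ncard = k) ∧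
      ¬ ∃ C K : Set α, M.IsCircuit C ∧ M.IsCocircuit K ∧ (C ∩ K).ncard = k - 2 :=
  Pool.Agent.H89.CC.main k hk

end Pool.Agent.Results.MP_1fc8d1_co.EverySizeFromTwenty
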